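import Mathlib

/-!
# Sign changes of `f_{p,q}(n+1) - f_{p,q}(n)`

Let `F(z) = ∑ f(n) z ^ n = ∏ (1 + z ^ (p ^ a q ^ b))` and `G(z) = ∏ (1 + z ^ (q ^ b))`, so that
`F(z) = G(z) F(z ^ p)`. If `f` is nondecreasing from some point on, then
`|1 - ζ r| |F(ζ r)| ≤ (1 - r) F(r) + C` for `0 ≤ r < 1` and all `ζ` on the unit circle. If `ζ ^ p = 1`, then
`F(ζ r) = G(ζ r) F(r ^ p)`, so `|1 - ζ r| |G(ζ r)| / G(r) ≤ (1 - r) + C / F(r)`. As `|1 + ζ u| ≥ (1 + u) |1 + ζ| / 2`,
the quotient `|G(ζ r)| / G(r)` at `r = exp (- τ / q ^ n)` is at least a constant times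
`2 ^ (-n) ∏_{b < n} |1 + ζ ^ (q ^ b)|`. Since the product of all `1 + ζ` over the primitive `p`-th roots of unity is a
nonzero integer (here `p > 2` is used), some primitive `ζ` has `∏_{b < φ(p) k} |1 + ζ ^ (q ^ b)| ≥ 1` for all `k`. So
`c ≤ 2 ^ n (1 - r) + C 2 ^ n / F(r)`, where the right-hand side tends to `0`, because `q > 2` and `F(r)` grows faster.
-/

set_option autoImplicit false

namespace Pool.Agent.Results.MP_b44203_nt.SignChanges

open Finset Filter Topology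

/-- `repCount p q n` is the number `f_{p,q}(n)` of finite sets `S` of numbers of the form `p ^ a * q ^ b` whose
elements add up to `n`. -/
noncomputable def repCount (p q n : ℕ) : ℕ :=
  {S : Finset ℕ | (∀ s ∈ S, ∃ a b : ℕ, s = p ^ a * q ^ b) ∧ ∑ s ∈ S, s = n}.ncard

/-- The number `p ^ a * q ^ b` belonging to the pair `(a, b)`. -/
def wt (p q : ℕ) (i : ℕ × ℕ) : ℕ := p ^ i.1 * q ^ i.2

lemma wt_injective {p q : ℕ} (hp : 1 < p) (hq : 1 < q) (hpq : p.Coprime q) :
    Function.Injective (wt p q) := by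
  have key : ∀ a b c d : ℕ, p ^ a * q ^ b = p ^ c * q ^ d → a ≤ c := by
    intro a b c d h
    have h1 : p ^ a ∣ p ^ c * q ^ d := by rw [← h]; exact Dvd.intro _ rfl
    have h2 : Nat.Coprime (p ^ a) (q ^ d) := Nat.Coprime.pow a d hpq
    have h3 : p ^ a ∣ p ^ c := h2.dvd_of_dvd_mul_right h1
    exact (Nat.pow_dvd_pow_iff_le_right hp).1 h3
  rintro ⟨a, b⟩ ⟨c, d⟩ h
  simp only [wt] at h
  have h1 : a = c := le_antisymm (key a b c d h) (key c d a b h.symm)
  subst h1
  have h2 : q ^ b = q ^ d := Nat.eq_of_mul_eq_mul_left (by positivity) h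
  rw [Nat.pow_right_injective hq h2]

/-- The sum belonging to a finite set of pairs. -/
def W (p q : ℕ) (T : Finset (ℕ × ℕ)) : ℕ := ∑ i ∈ T, wt p q i

lemma repCount_eq {p q : ℕ} (hp : 1 < p) (hq : 1 < q) (hpq : p.Coprime q) (n : ℕ) :
    repCount p q n = (W p q ⁻¹' {n}).ncard := by
  have hinj := wt_injective hp hq hpq
  have hmap : Function.Injective (Finset.map (⟨wt p q, hinj⟩ : (ℕ × ℕ) ↪ ℕ)) :=
    Finset.map_injective _
  rw [repCount, ← Set.ncard_image_of_injective _ hmap]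
  congr 1
  ext S
  simp only [Set.mem_ofPred_eq, Set.mem_image, Set.mem_preimage, Set.mem_singleton_iff]
  constructor
  · rintro ⟨h1, h2⟩
    refine ⟨S.preimage (wt p q) hinj.injOn, ?_, ?_⟩
    · rw [W, ← h2]
      rw [Finset.sum_preimage (wt p q) S hinj.injOn (fun s => s)]
      intro s hs hns
      exfalso
      obtain ⟨a, b, rfl⟩ := h1 s hs
      exact hns ⟨(a, b), rfl⟩
    · ext s
      simp only [Finset.mem_map, Finset.mem_preimage, Function.Embedding.coeFn_mk]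
      constructor
      · rintro ⟨i, hi, rfl⟩
        exact hi
      · intro hs
        obtain ⟨a, b, rfl⟩ := h1 s hs
        exact ⟨(a, b), hs, rfl⟩
  · rintro ⟨T, hT, rfl⟩
    refine ⟨?_, ?_⟩
    · intro s hs
      rw [Finset.mem_map] at hs
      obtain ⟨i, _, rfl⟩ := hs
      exact ⟨i.1, i.2, rfl⟩
    · rw [Finset.sum_map]
      exact hT

lemma wt_pos {p q : ℕ} (hp : 1 < p) (hq : 1 < q) (i : ℕ × ℕ) : 0 < wt p q i := by
  unfold wt; positivity

lemma finite_fiber {p q : ℕ} (hp : 1 < p) (hq : 1 < q) (n : ℕ) : (W p q ⁻¹' {n}).Finite := by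
  apply Set.Finite.subset (Finset.finite_toSet ((range (n + 1) ×ˢ range (n + 1)).powerset))
  intro T hT
  rw [Set.mem_preimage, Set.mem_singleton_iff] at hT
  rw [Finset.mem_coe, Finset.mem_powerset]
  intro i hi
  have h1 : wt p q i ≤ n := by
    rw [← hT, W]
    exact Finset.single_le_sum (f := wt p q) (fun _ _ => Nat.zero_le _) hi
  rw [Finset.mem_product, Finset.mem_range, Finset.mem_range]
  have h2 : p ^ i.1 ≤ wt p q i := Nat.le_mul_of_pos_right _ (by positivity)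
  have h3 : q ^ i.2 ≤ wt p q i := Nat.le_mul_of_pos_left _ (by positivity)
  have h4 : i.1 < p ^ i.1 := Nat.lt_pow_self hp
  have h5 : i.2 < q ^ i.2 := Nat.lt_pow_self hq
  constructor <;> omega

/-- The generating function as an infinite product. -/
noncomputable def Phi (p q : ℕ) (z : ℂ) : ℂ := ∏' i : ℕ × ℕ, (1 + z ^ wt p q i)

lemma summable_wt {p q : ℕ} (hp : 1 < p) (hq : 1 < q) (hpq : p.Coprime q) {z : ℂ} (hz : ‖z‖ < 1) :
    Summable (fun i : ℕ × ℕ => ‖z ^ wt p q i‖) := by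
  have h1 : Summable (fun n : ℕ => ‖z‖ ^ n) := summable_geometric_of_lt_one (norm_nonneg _) hz
  have h2 := h1.comp_injective (wt_injective hp hq hpq)
  simpa [Function.comp_def, norm_pow] using h2

lemma hasSum_finset {p q : ℕ} (hp : 1 < p) (hq : 1 < q) (hpq : p.Coprime q) {z : ℂ}
    (hz : ‖z‖ < 1) : HasSum (fun T : Finset (ℕ × ℕ) => z ^ W p q T) (Phi p q z) := by
  have h1 := summable_finsetProd_of_summable_norm (summable_wt hp hq hpq hz)
  have h2 := tprod_one_add h1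
  have h3 : (fun T : Finset (ℕ × ℕ) => ∏ i ∈ T, z ^ wt p q i) = fun T => z ^ W p q T := by
    ext T
    rw [Finset.prod_pow_eq_pow_sum, W]
  rw [Phi, h2, ← h3]
  exact h1.hasSum

lemma hasSum_Phi {p q : ℕ} (hp : 1 < p) (hq : 1 < q) (hpq : p.Coprime q) {z : ℂ}
    (hz : ‖z‖ < 1) : HasSum (fun n : ℕ => (repCount p q n : ℂ) * z ^ n) (Phi p q z) := by
  have h1 := (hasSum_finset hp hq hpq hz).tsum_fiberwise (W p q)
  have h2 : (fun n : ℕ => ∑' T : W p q ⁻¹' {n}, z ^ W p q (T : Finset (ℕ × ℕ))) =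
      fun n : ℕ => (repCount p q n : ℂ) * z ^ n := by
    ext n
    have h3 : ∀ T : W p q ⁻¹' {n}, z ^ W p q (T : Finset (ℕ × ℕ)) = z ^ n := by
      rintro ⟨T, hT⟩
      rw [Set.mem_preimage, Set.mem_singleton_iff] at hT
      simp only [hT]
    rw [tsum_congr h3, tsum_const, nsmul_eq_mul, repCount_eq hp hq hpq]
    rfl
  rw [h2] at h1
  exact h1

/-- The product over the powers of `q`. -/
noncomputable def G (q : ℕ) (z : ℂ) : ℂ := ∏' b : ℕ, (1 + z ^ q ^ b)

lemma summable_G {q : ℕ} (hq : 1 < q) {z : ℂ} (hz : ‖z‖ < 1) :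
    Summable (fun b : ℕ => ‖z ^ q ^ b‖) := by
  have h1 : Summable (fun n : ℕ => ‖z‖ ^ n) := summable_geometric_of_lt_one (norm_nonneg _) hz
  have h2 := h1.comp_injective (Nat.pow_right_injective hq)
  simpa [Function.comp_def, norm_pow] using h2

lemma Phi_eq {p q : ℕ} (hp : 1 < p) (hq : 1 < q) (hpq : p.Coprime q) {z : ℂ}
    (hz : ‖z‖ < 1) : Phi p q z = G q z * Phi p q (z ^ p) := by
  have hzp : ‖z ^ p‖ < 1 := by
    rw [norm_pow]
    exact pow_lt_one₀ (norm_nonneg _) hz (by omega)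
  set f : ℕ × ℕ → ℂ := fun i => 1 + z ^ wt p q i with hf
  let g0 : ℕ → ℕ × ℕ := fun b => (0, b)
  let g1 : ℕ × ℕ → ℕ × ℕ := fun i => (i.1 + 1, i.2)
  have hg0 : Function.Injective g0 := fun a b h => by simpa [g0] using h
  have hg1 : Function.Injective g1 := by
    rintro ⟨a, b⟩ ⟨c, d⟩ h
    simpa [g1] using h
  have hcompl : IsCompl (Set.range g0) (Set.range g1) := by
    constructor
    · rw [Set.disjoint_left]
      rintro _ ⟨b, rfl⟩ ⟨⟨c, d⟩, h⟩
      simp only [g0, g1, Prod.mk.injEq] at h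
      omega
    · rw [codisjoint_iff_le_sup]
      rintro ⟨a, b⟩ _
      rcases a with _ | a
      · exact Or.inl ⟨b, rfl⟩
      · exact Or.inr ⟨(a, b), rfl⟩
  have h0 : HasProd (f ∘ g0) (G q z) := by
    have h1 := (multipliable_one_add_of_summable (summable_G hq hz)).hasProd
    have h2 : f ∘ g0 = fun b : ℕ => 1 + z ^ q ^ b := by
      ext b; simp [hf, g0, wt]
    rw [h2]
    exact h1
  have h1 : HasProd (f ∘ g1) (Phi p q (z ^ p)) := by
    have h1 := (multipliable_one_add_of_summable (summable_wt hp hq hpq hzp)).hasProd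
    have h2 : f ∘ g1 = fun i : ℕ × ℕ => 1 + (z ^ p) ^ wt p q i := by
      ext i
      simp only [hf, g1, wt, Function.comp_apply]
      rw [← pow_mul]
      congr 2
      ring
    rw [h2]
    exact h1
  have h2 := HasProd.mul_isCompl hcompl (hg0.hasProd_range_iff.2 h0) (hg1.hasProd_range_iff.2 h1)
  rw [Phi]
  exact h2.tprod_eq

lemma G_eq {q : ℕ} (hq : 1 < q) {z : ℂ} (hz : ‖z‖ < 1) (n : ℕ) :
    G q z = (∏ b ∈ range n, (1 + z ^ q ^ b)) * G q (z ^ q ^ n) := by
  have hzq : ‖z ^ q ^ n‖ < 1 := by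
    rw [norm_pow]
    exact pow_lt_one₀ (norm_nonneg _) hz (by positivity)
  have h1 : Multipliable (fun b : ℕ => 1 + (z ^ q ^ n) ^ q ^ b) :=
    multipliable_one_add_of_summable (summable_G hq hzq)
  have h2 : (fun b : ℕ => 1 + (z ^ q ^ n) ^ q ^ b) = fun b => 1 + z ^ q ^ (b + n) := by
    ext b
    rw [← pow_mul, ← pow_add, add_comm n b]
  rw [h2] at h1
  have h3 := Multipliable.prod_mul_tprod_nat_mul' (f := fun b : ℕ => 1 + z ^ q ^ b) (k := n) h1
  rw [← h2] at h3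
  exact h3.symm


lemma repCount_zero {p q : ℕ} (hp : 1 < p) (hq : 1 < q) (hpq : p.Coprime q) :
    repCount p q 0 = 1 := by
  rw [repCount_eq hp hq hpq, Set.ncard_eq_one]
  refine ⟨∅, ?_⟩
  ext T
  simp only [Set.mem_preimage, Set.mem_singleton_iff]
  constructor
  · intro h
    by_contra hne
    obtain ⟨i, hi⟩ := Finset.nonempty_iff_ne_empty.2 hne
    have h1 : wt p q i ≤ W p q T :=
      Finset.single_le_sum (f := wt p q) (fun _ _ => Nat.zero_le _) hi
    have h2 := wt_pos hp hq i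
    omega
  · rintro rfl
    simp [W]

/-- At a real argument the generating function is real and at least `1`. -/
lemma exists_real {p q : ℕ} (hp : 1 < p) (hq : 1 < q) (hpq : p.Coprime q) {r : ℝ} (hr0 : 0 ≤ r)
    (hr1 : r < 1) : ∃ s : ℝ, 1 ≤ s ∧ Phi p q (r : ℂ) = (s : ℂ) ∧
      HasSum (fun n : ℕ => (repCount p q n : ℝ) * r ^ n) s := by
  have hz : ‖(r : ℂ)‖ < 1 := by
    rw [Complex.norm_real, Real.norm_of_nonneg hr0]
    exact hr1
  have h1 := hasSum_Phi hp hq hpq hz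
  have h2 : HasSum (fun n : ℕ => (repCount p q n : ℝ) * r ^ n) (Phi p q (r : ℂ)).re := by
    have h3 := Complex.hasSum_re h1
    have h4 : (fun n : ℕ => ((repCount p q n : ℂ) * (r : ℂ) ^ n).re) =
        fun n : ℕ => (repCount p q n : ℝ) * r ^ n := by
      ext n
      rw [← Complex.ofReal_natCast, ← Complex.ofReal_pow, ← Complex.ofReal_mul, Complex.ofReal_re]
    rw [h4] at h3
    exact h3
  refine ⟨(Phi p q (r : ℂ)).re, ?_, ?_, h2⟩
  · have h5 := le_hasSum h2 0 (fun n _ => by positivity)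
    rw [repCount_zero hp hq hpq] at h5
    simpa using h5
  · have h6 : HasSum (fun n : ℕ => (((repCount p q n : ℝ) * r ^ n : ℝ) : ℂ))
        (((Phi p q (r : ℂ)).re : ℝ) : ℂ) := Complex.hasSum_ofReal.2 h2
    have h7 : (fun n : ℕ => (((repCount p q n : ℝ) * r ^ n : ℝ) : ℂ)) =
        fun n : ℕ => (repCount p q n : ℂ) * (r : ℂ) ^ n := by
      ext n
      push_cast
      rfl
    rw [h7] at h6
    exact h1.unique h6

lemma one_le_norm_Phi {p q : ℕ} (hp : 1 < p) (hq : 1 < q) (hpq : p.Coprime q) {r : ℝ}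
    (hr0 : 0 ≤ r) (hr1 : r < 1) : 1 ≤ ‖Phi p q (r : ℂ)‖ := by
  obtain ⟨s, hs, h, _⟩ := exists_real hp hq hpq hr0 hr1
  rw [h, Complex.norm_real, Real.norm_of_nonneg (by linarith)]
  exact hs

/-- The main inequality: if the sequence is nondecreasing from `N` on, then `(1 - z) F(z)` is bounded on every circle
by its value at the real point, up to a constant. -/
lemma main_ineq {p q : ℕ} (hp : 1 < p) (hq : 1 < q) (hpq : p.Coprime q) {N : ℕ}
    (hN : ∀ n ≥ N, repCount p q n ≤ repCount p q (n + 1)) :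
    ∃ C : ℝ, 0 ≤ C ∧ ∀ (r : ℝ) (z : ℂ), 0 ≤ r → r < 1 → ‖z‖ = r →
      ‖1 - z‖ * ‖Phi p q z‖ ≤ (1 - r) * ‖Phi p q (r : ℂ)‖ + C := by
  set a : ℕ → ℝ := fun n => (repCount p q (n + 1) : ℝ) - repCount p q n with ha
  refine ⟨∑ n ∈ range N, (|a n| - a n), ?_, ?_⟩
  · apply Finset.sum_nonneg
    intro n _
    linarith [le_abs_self (a n)]
  intro r z hr0 hr1 hzr
  have hz : ‖z‖ < 1 := by rw [hzr]; exact hr1
  -- the series of (1 - z) F(z)
  have hser : HasSum (fun n : ℕ => ((a n : ℝ) : ℂ) * z ^ (n + 1)) ((1 - z) * Phi p q z - 1) := by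
    have h1 := hasSum_Phi hp hq hpq hz
    have h2 : HasSum (fun n : ℕ => (repCount p q (n + 1) : ℂ) * z ^ (n + 1)) (Phi p q z - 1) := by
      have := (hasSum_nat_add_iff' 1).2 h1
      simpa [repCount_zero hp hq hpq] using this
    have h3 := h1.mul_left z
    have h4 := h2.sub h3
    have h5 : Phi p q z - 1 - z * Phi p q z = (1 - z) * Phi p q z - 1 := by ring
    rw [h5] at h4
    have h6 : (fun n : ℕ => ((a n : ℝ) : ℂ) * z ^ (n + 1)) = fun n : ℕ =>
        (repCount p q (n + 1) : ℂ) * z ^ (n + 1) - z * ((repCount p q n : ℂ) * z ^ n) := by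
      ext n
      simp only [ha]
      push_cast
      ring
    rw [h6]
    exact h4
  obtain ⟨s, hs1, hs2, hs3⟩ := exists_real hp hq hpq hr0 hr1
  have hreal : HasSum (fun n : ℕ => a n * r ^ (n + 1)) ((1 - r) * s - 1) := by
    have h2 : HasSum (fun n : ℕ => (repCount p q (n + 1) : ℝ) * r ^ (n + 1)) (s - 1) := by
      have := (hasSum_nat_add_iff' 1).2 hs3
      simpa [repCount_zero hp hq hpq] using this
    have h3 := hs3.mul_left r
    have h4 := h2.sub h3
    have h5 : s - 1 - r * s = (1 - r) * s - 1 := by ring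
    rw [h5] at h4
    have h6 : (fun n : ℕ => a n * r ^ (n + 1)) = fun n : ℕ =>
        (repCount p q (n + 1) : ℝ) * r ^ (n + 1) - r * ((repCount p q n : ℝ) * r ^ n) := by
      ext n
      simp only [ha]
      ring
    rw [h6]
    exact h4
  have hfin : HasSum (fun n : ℕ => (|a n| - a n) * r ^ (n + 1))
      (∑ n ∈ range N, (|a n| - a n) * r ^ (n + 1)) := by
    apply hasSum_sum_of_ne_finset_zero
    intro n hn
    rw [Finset.mem_range, not_lt] at hn
    have h1 : 0 ≤ a n := by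
      simp only [ha]
      have := hN n hn
      have h2 : (repCount p q n : ℝ) ≤ repCount p q (n + 1) := by exact_mod_cast this
      linarith
    rw [abs_of_nonneg h1]
    ring
  have habs : HasSum (fun n : ℕ => |a n| * r ^ (n + 1))
      ((1 - r) * s - 1 + ∑ n ∈ range N, (|a n| - a n) * r ^ (n + 1)) := by
    have h6 : (fun n : ℕ => |a n| * r ^ (n + 1)) = fun n : ℕ =>
        a n * r ^ (n + 1) + (|a n| - a n) * r ^ (n + 1) := by
      ext n
      ring
    rw [h6]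
    exact hreal.add hfin
  have hnorm : ‖(1 - z) * Phi p q z - 1‖ ≤
      (1 - r) * s - 1 + ∑ n ∈ range N, (|a n| - a n) * r ^ (n + 1) := by
    apply hser.norm_le_of_bounded habs
    intro n
    rw [norm_mul, norm_pow, hzr, Complex.norm_real, Real.norm_eq_abs]
  have hsum_le : ∑ n ∈ range N, (|a n| - a n) * r ^ (n + 1) ≤ ∑ n ∈ range N, (|a n| - a n) := by
    apply Finset.sum_le_sum
    intro n _
    have h1 : 0 ≤ |a n| - a n := by linarith [le_abs_self (a n)]
    have h2 : r ^ (n + 1) ≤ 1 := pow_le_one₀ hr0 hr1.le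
    nlinarith
  rw [← norm_mul]
  have h6 : ‖(1 - z) * Phi p q z‖ ≤ ‖(1 - z) * Phi p q z - 1‖ + 1 := by
    calc ‖(1 - z) * Phi p q z‖ = ‖((1 - z) * Phi p q z - 1) + 1‖ := by ring_nf
      _ ≤ ‖(1 - z) * Phi p q z - 1‖ + ‖(1 : ℂ)‖ := norm_add_le _ _
      _ = _ := by rw [norm_one]
  have h7 : ‖Phi p q (r : ℂ)‖ = s := by
    rw [hs2, Complex.norm_real, Real.norm_of_nonneg (by linarith)]
  rw [h7]
  linarith

/-- The elementary inequality `‖1 + ζ u‖ ≥ (1 + u) ‖1 + ζ‖ / 2` for `‖ζ‖ = 1`. -/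
lemma norm_one_add_ge {ζ : ℂ} (hζ : ‖ζ‖ = 1) (u : ℝ) :
    (1 + u) * (‖1 + ζ‖ / 2) ≤ ‖1 + ζ * u‖ := by
  have h1 : ‖1 + ζ‖ ^ 2 = 2 + 2 * ζ.re := by
    rw [← Complex.normSq_eq_norm_sq, Complex.normSq_apply]
    have h2 : ζ.re * ζ.re + ζ.im * ζ.im = 1 := by
      rw [← Complex.normSq_apply, Complex.normSq_eq_norm_sq, hζ]; norm_num
    simp only [Complex.add_re, Complex.one_re, Complex.add_im, Complex.one_im]
    nlinarith
  have h3 : ‖1 + ζ * u‖ ^ 2 = 1 + 2 * u * ζ.re + u ^ 2 := by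
    rw [← Complex.normSq_eq_norm_sq, Complex.normSq_apply]
    have h2 : ζ.re * ζ.re + ζ.im * ζ.im = 1 := by
      rw [← Complex.normSq_apply, Complex.normSq_eq_norm_sq, hζ]; norm_num
    simp only [Complex.add_re, Complex.one_re, Complex.add_im, Complex.one_im, Complex.mul_re,
      Complex.mul_im, Complex.ofReal_re, Complex.ofReal_im]
    nlinarith
  have h4 : ζ.re ≤ 1 := by
    have := Complex.abs_re_le_norm ζ
    rw [hζ] at this
    exact (abs_le.1 this).2
  apply le_of_sq_le_sq _ (norm_nonneg _)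
  rw [h3, mul_pow, div_pow, h1]
  nlinarith [mul_nonneg (sub_nonneg.2 h4) (sq_nonneg (1 - u))]


/-- A primitive `p`-th root of unity `ζ` with `∏ (1 + ζ ^ (q ^ b))` of norm at least `1`. -/
lemma exists_root {p q : ℕ} (hp : 2 < p) (hpq : p.Coprime q) :
    ∃ ζ : ℂ, ζ ^ p = 1 ∧ ζ ≠ 1 ∧
      1 ≤ ∏ b ∈ range (Nat.totient p), ‖1 + ζ ^ q ^ b‖ := by
  have hp0 : 0 < p := by omega
  have htot : 0 < Nat.totient p := Nat.totient_pos.2 hp0
  set R : Finset ℂ := primitiveRoots p ℂ with hR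
  have hmem : ∀ ζ ∈ R, IsPrimitiveRoot ζ p := fun ζ hζ => (mem_primitiveRoots hp0).1 hζ
  have hcop : ∀ b : ℕ, (q ^ b).Coprime p := fun b => Nat.Coprime.pow_left b hpq.symm
  -- powers permute the primitive roots
  have hback : ∀ (b : ℕ) (ζ : ℂ), ζ ^ p = 1 →
      (ζ ^ q ^ b) ^ ((q ^ b) ^ (Nat.totient p - 1)) = ζ := by
    intro b ζ hζ
    rw [← pow_mul, ← pow_succ', Nat.sub_add_cancel htot]
    have h1 : (q ^ b) ^ Nat.totient p ≡ 1 [MOD p] := Nat.ModEq.pow_totient (hcop b)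
    rw [pow_eq_pow_mod _ hζ, h1, ← pow_eq_pow_mod _ hζ, pow_one]
  have hperm : ∀ b : ℕ, ∏ ζ ∈ R, ‖1 + ζ ^ q ^ b‖ = ∏ ζ ∈ R, ‖1 + ζ‖ := by
    intro b
    have hmaps : Set.MapsTo (fun ζ : ℂ => ζ ^ q ^ b) R R := by
      intro ζ hζ
      exact (mem_primitiveRoots hp0).2 ((hmem ζ hζ).pow_of_coprime _ (hcop b))
    have hinj : Set.InjOn (fun ζ : ℂ => ζ ^ q ^ b) R := by
      intro ζ hζ ξ hξ h
      simp only at h
      rw [← hback b ζ (hmem ζ hζ).pow_eq_one, ← hback b ξ (hmem ξ hξ).pow_eq_one, h]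
    have hsurj : Set.SurjOn (fun ζ : ℂ => ζ ^ q ^ b) R R :=
      Finset.surjOn_of_injOn_of_card_le _ hmaps hinj le_rfl
    exact Finset.prod_nbij (fun ζ : ℂ => ζ ^ q ^ b) hmaps hinj hsurj (fun _ _ => rfl)
  -- the product of the 1 + ζ is a nonzero integer
  have hN : 1 ≤ ∏ ζ ∈ R, ‖1 + ζ‖ := by
    have h1 : Polynomial.eval (-1 : ℂ) (Polynomial.cyclotomic p ℂ) = ∏ ζ ∈ R, (-1 - ζ) := by
      rw [Polynomial.cyclotomic_eq_prod_X_sub_primitiveRoots
        (Complex.isPrimitiveRoot_exp p (by omega)), Polynomial.eval_prod]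
      simp [hR]
    have h2 : ((Polynomial.eval (-1 : ℤ) (Polynomial.cyclotomic p ℤ) : ℤ) : ℂ) =
        Polynomial.eval (-1 : ℂ) (Polynomial.cyclotomic p ℂ) := by
      have := Polynomial.cyclotomic.eval_apply (-1 : ℤ) p (Int.castRingHom ℂ)
      simp only [map_neg, map_one, eq_intCast] at this
      exact this.symm
    have h3 : ∏ ζ ∈ R, ‖1 + ζ‖ =
        ‖((Polynomial.eval (-1 : ℤ) (Polynomial.cyclotomic p ℤ) : ℤ) : ℂ)‖ := by
      rw [h2, h1, norm_prod]
      apply Finset.prod_congr rfl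
      intro ζ _
      rw [← norm_neg]
      ring_nf
    have h4 : ((Polynomial.eval (-1 : ℤ) (Polynomial.cyclotomic p ℤ) : ℤ) : ℂ) ≠ 0 := by
      rw [h2, h1]
      rw [Finset.prod_ne_zero_iff]
      intro ζ hζ h0
      have h5 : ζ = -1 := by linear_combination -h0
      have h6 := hmem ζ hζ
      rw [h5] at h6
      have h7 : p ∣ 2 := h6.dvd_of_pow_eq_one 2 (by norm_num)
      have := Nat.le_of_dvd (by norm_num) h7
      omega
    have h5 : (Polynomial.eval (-1 : ℤ) (Polynomial.cyclotomic p ℤ) : ℤ) ≠ 0 := by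
      intro h; rw [h] at h4; simp at h4
    rw [h3, Complex.norm_intCast]
    exact_mod_cast Int.one_le_abs h5
  by_contra hcon
  push Not at hcon
  have hlt : ∀ ζ ∈ R, ∏ b ∈ range (Nat.totient p), ‖1 + ζ ^ q ^ b‖ < 1 := by
    intro ζ hζ
    have h1 := hmem ζ hζ
    exact hcon ζ h1.pow_eq_one (h1.ne_one (by omega))
  have hRne : R.Nonempty := by
    rw [← Finset.card_pos, hR, Complex.card_primitiveRoots]
    exact htot
  have h1 : ∏ ζ ∈ R, ∏ b ∈ range (Nat.totient p), ‖1 + ζ ^ q ^ b‖ =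
      (∏ ζ ∈ R, ‖1 + ζ‖) ^ Nat.totient p := by
    rw [Finset.prod_comm, Finset.prod_congr rfl (fun b _ => hperm b), Finset.prod_const,
      card_range]
  have h2 : ∏ ζ ∈ R, ∏ b ∈ range (Nat.totient p), ‖1 + ζ ^ q ^ b‖ < 1 := by
    obtain ⟨ζ, hζ⟩ := hRne
    have h3 : ∏ ζ ∈ R, ∏ b ∈ range (Nat.totient p), ‖1 + ζ ^ q ^ b‖ ≤
        ∏ b ∈ range (Nat.totient p), ‖1 + ζ ^ q ^ b‖ := by
      rw [← Finset.mul_prod_erase R _ hζ]
      apply mul_le_of_le_one_right
      · positivity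
      · apply Finset.prod_le_one
        · intro ξ _
          positivity
        · intro ξ hξ
          exact (hlt ξ (Finset.mem_of_mem_erase hξ)).le
    exact h3.trans_lt (hlt ζ hζ)
  rw [h1] at h2
  exact absurd (one_le_pow₀ hN (n := Nat.totient p)) (not_le.2 h2)

/-- The counting function is not eventually nondecreasing. -/
lemma not_eventually_mono {p q : ℕ} (hp : 2 < p) (hlt : p < q) (hpq : p.Coprime q) (N : ℕ)
    (hN : ∀ n ≥ N, repCount p q n ≤ repCount p q (n + 1)) : False := by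
  have hp1 : 1 < p := by omega
  have hq1 : 1 < q := by omega
  obtain ⟨ζ, hζp, hζ1, hζprod⟩ := exists_root hp hpq
  obtain ⟨C, hC0, hC⟩ := main_ineq hp1 hq1 hpq hN
  obtain ⟨h, hh⟩ : ∃ h : ℕ, h = Nat.totient p := ⟨_, rfl⟩
  rw [← hh] at hζprod
  have hh0 : 0 < h := by rw [hh]; exact Nat.totient_pos.2 (by omega)
  have hnormζ : ‖ζ‖ = 1 := by
    have h1 : ‖ζ‖ ^ p = 1 := by rw [← norm_pow, hζp, norm_one]
    exact (pow_eq_one_iff_of_nonneg (norm_nonneg _) (by omega)).1 h1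
  have hζpow : ∀ m : ℕ, ζ ^ m = ζ ^ (m % p) := fun m => pow_eq_pow_mod m hζp
  have hqh : ∀ k : ℕ, q ^ (h * k) ≡ 1 [MOD p] := by
    intro k
    rw [pow_mul]
    have h1 : q ^ h ≡ 1 [MOD p] := by rw [hh]; exact Nat.ModEq.pow_totient hpq.symm
    have h2 := h1.pow k
    rwa [one_pow] at h2
  have hζq : ∀ k b : ℕ, ζ ^ q ^ (h * k + b) = ζ ^ q ^ b := by
    intro k b
    have h1 : q ^ (h * k + b) ≡ q ^ b [MOD p] := by
      rw [pow_add]
      have := (hqh k).mul_right (q ^ b)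
      rwa [one_mul] at this
    rw [hζpow (q ^ (h * k + b)), h1, ← hζpow]
  have hprodk : ∀ k : ℕ, 1 ≤ ∏ b ∈ range (h * k), ‖1 + ζ ^ q ^ b‖ := by
    intro k
    induction k with
    | zero => simp
    | succ k ih =>
      rw [Nat.mul_succ, Finset.prod_range_add]
      have h1 : ∏ x ∈ range h, ‖1 + ζ ^ q ^ (h * k + x)‖ = ∏ x ∈ range h, ‖1 + ζ ^ q ^ x‖ :=
        Finset.prod_congr rfl (fun x _ => by rw [hζq])
      rw [h1]
      nlinarith
  -- the parameters
  obtain ⟨τ, hτ⟩ : ∃ τ : ℝ, τ = Real.log 2 / p := ⟨_, rfl⟩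
  have hpR : (0 : ℝ) < p := by exact_mod_cast (by omega : 0 < p)
  have hτ0 : 0 < τ := by rw [hτ]; exact div_pos (Real.log_pos (by norm_num)) hpR
  obtain ⟨ρ, hρ⟩ : ∃ ρ : ℝ, ρ = Real.exp (-τ) := ⟨_, rfl⟩
  have hρ0 : 0 < ρ := by rw [hρ]; exact Real.exp_pos _
  have hρ1 : ρ < 1 := by rw [hρ]; exact Real.exp_lt_one_iff.2 (by linarith)
  have hρp : ρ ^ p = 1 / 2 := by
    rw [hρ, ← Real.exp_nat_mul, hτ]
    have : (p : ℝ) * -(Real.log 2 / p) = -Real.log 2 := by field_simp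
    rw [this, Real.exp_neg, Real.exp_log (by norm_num)]
    norm_num
  have hρhalf : 1 / 2 ≤ ρ := by
    rw [← hρp]
    exact pow_le_of_le_one hρ0.le hρ1.le (by omega)
  have hnormρ : ‖(ρ : ℂ)‖ < 1 := by rw [Complex.norm_real, Real.norm_of_nonneg hρ0.le]; exact hρ1
  have hnormζρ : ‖ζ * (ρ : ℂ)‖ < 1 := by rw [norm_mul, hnormζ, one_mul]; exact hnormρ
  have hG1 : 0 < ‖G q (ζ * ρ)‖ := by
    rw [norm_pos_iff]
    apply tprod_one_add_ne_zero_of_summable
    · intro b hb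
      have h1 : ‖(ζ * (ρ : ℂ)) ^ q ^ b‖ < 1 := by
        rw [norm_pow]
        exact pow_lt_one₀ (norm_nonneg _) hnormζρ (by positivity)
      have h2 : (ζ * (ρ : ℂ)) ^ q ^ b = -1 := by linear_combination hb
      rw [h2, norm_neg, norm_one] at h1
      exact lt_irrefl _ h1
    · exact summable_G hq1 hnormζρ
  have hρp1 : ‖((ρ : ℂ) ^ p)‖ < 1 := by
    rw [norm_pow]
    exact pow_lt_one₀ (norm_nonneg _) hnormρ (by omega)
  have hG2 : 0 < ‖G q ((ρ : ℂ) ^ p)‖ := by
    rw [norm_pos_iff]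
    apply tprod_one_add_ne_zero_of_summable
    · intro b hb
      have h1 : ‖((ρ : ℂ) ^ p) ^ q ^ b‖ < 1 := by
        rw [norm_pow]
        exact pow_lt_one₀ (norm_nonneg _) hρp1 (by positivity)
      have h2 : ((ρ : ℂ) ^ p) ^ q ^ b = -1 := by linear_combination hb
      rw [h2, norm_neg, norm_one] at h1
      exact lt_irrefl _ h1
    · exact summable_G hq1 hρp1
  -- the estimate for every k
  have hest : ∀ k : ℕ, ‖1 - ζ‖ / 2 * ‖G q (ζ * ρ)‖ ≤
      τ * (2 / 3 : ℝ) ^ (h * k) * ‖G q (ρ : ℂ)‖ +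
        C * (8 / 9 : ℝ) ^ (h * k) / ‖G q ((ρ : ℂ) ^ p)‖ := by
    intro k
    obtain ⟨n, hn⟩ : ∃ n : ℕ, n = h * k := ⟨_, rfl⟩
    rw [← hn]
    obtain ⟨r, hr⟩ : ∃ r : ℝ, r = Real.exp (-(τ / (q : ℝ) ^ n)) := ⟨_, rfl⟩
    have hqR : (4 : ℝ) ≤ q := by exact_mod_cast (by omega : 4 ≤ q)
    have hqn : (0 : ℝ) < (q : ℝ) ^ n := by positivity
    have hr0 : 0 < r := by rw [hr]; exact Real.exp_pos _
    have hr1 : r < 1 := by
      rw [hr]
      rw [Real.exp_lt_one_iff]
      have : 0 < τ / (q : ℝ) ^ n := div_pos hτ0 hqn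
      linarith
    have hrn : r ^ q ^ n = ρ := by
      rw [hr, ← Real.exp_nat_mul, hρ]
      congr 1
      push_cast
      field_simp
    have hrb : ∀ b ≤ n, ρ ≤ r ^ q ^ b := by
      intro b hb
      rw [← hrn]
      exact pow_le_pow_of_le_one hr0.le hr1.le (Nat.pow_le_pow_right (by omega) hb)
    have hrC : ‖(r : ℂ)‖ = r := by rw [Complex.norm_real, Real.norm_of_nonneg hr0.le]
    have hrC1 : ‖(r : ℂ)‖ < 1 := by rw [hrC]; exact hr1
    have hζr : ‖ζ * (r : ℂ)‖ = r := by rw [norm_mul, hnormζ, one_mul, hrC]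
    have hζr1 : ‖ζ * (r : ℂ)‖ < 1 := by rw [hζr]; exact hr1
    -- U
    obtain ⟨U, hU⟩ : ∃ U : ℝ, U = ∏ b ∈ range n, (1 + r ^ q ^ b) := ⟨_, rfl⟩
    have hU1 : (1 + ρ) ^ n ≤ U := by
      rw [hU]
      calc (1 + ρ) ^ n = ∏ _b ∈ range n, (1 + ρ) := by rw [prod_const, card_range]
        _ ≤ ∏ b ∈ range n, (1 + r ^ q ^ b) := by
          apply Finset.prod_le_prod
          · intro b _; positivity
          · intro b hb
            have := hrb b (by rw [Finset.mem_range] at hb; omega)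
            linarith
    have hU0 : 0 < U := lt_of_lt_of_le (by positivity) hU1
    -- G at r
    have hGr : ‖G q (r : ℂ)‖ = U * ‖G q (ρ : ℂ)‖ := by
      rw [G_eq hq1 hrC1 n, norm_mul]
      congr 1
      · rw [norm_prod, hU]
        apply Finset.prod_congr rfl
        intro b _
        have : (1 : ℂ) + (r : ℂ) ^ q ^ b = ((1 + r ^ q ^ b : ℝ) : ℂ) := by push_cast; ring
        rw [this, Complex.norm_real, Real.norm_of_nonneg (by positivity)]
      · rw [← Complex.ofReal_pow, hrn]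
    -- G at ζ r
    have hGζ : U * (1 / 2) ^ n * ‖G q (ζ * ρ)‖ ≤ ‖G q (ζ * (r : ℂ))‖ := by
      rw [G_eq hq1 hζr1 n, norm_mul]
      have h1 : (ζ * (r : ℂ)) ^ q ^ n = ζ * ρ := by
        rw [mul_pow, ← Complex.ofReal_pow, hrn]
        congr 1
        have := hζq k 0
        rw [add_zero, ← hn, pow_zero, pow_one] at this
        exact this
      rw [h1]
      apply mul_le_mul_of_nonneg_right _ (norm_nonneg _)
      rw [norm_prod]
      calc U * (1 / 2) ^ n ≤ U * (1 / 2) ^ n * ∏ b ∈ range n, ‖1 + ζ ^ q ^ b‖ := by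
            apply le_mul_of_one_le_right (by positivity)
            rw [hn]
            exact hprodk k
        _ = ∏ b ∈ range n, ((1 + r ^ q ^ b) * (‖1 + ζ ^ q ^ b‖ / 2)) := by
            rw [Finset.prod_mul_distrib, Finset.prod_div_distrib, hU, prod_const, card_range,
              one_div, inv_pow]
            ring
        _ ≤ ∏ b ∈ range n, ‖1 + (ζ * (r : ℂ)) ^ q ^ b‖ := by
            apply Finset.prod_le_prod
            · intro b _; positivity
            · intro b _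
              have h2 : ‖ζ ^ q ^ b‖ = 1 := by rw [norm_pow, hnormζ, one_pow]
              have h3 := norm_one_add_ge h2 (r ^ q ^ b)
              rw [mul_pow]
              rw [Complex.ofReal_pow] at h3
              exact h3
    -- the functional equation
    have hPhi1 : Phi p q (ζ * (r : ℂ)) = G q (ζ * (r : ℂ)) * Phi p q ((r : ℂ) ^ p) := by
      rw [Phi_eq hp1 hq1 hpq hζr1, mul_pow, hζp, one_mul]
    have hPhi2 : Phi p q (r : ℂ) = G q (r : ℂ) * Phi p q ((r : ℂ) ^ p) := Phi_eq hp1 hq1 hpq hrC1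
    -- lower bound for Phi (r ^ p)
    have hrp0 : 0 ≤ r ^ p := by positivity
    have hrp1 : r ^ p < 1 := pow_lt_one₀ hr0.le hr1 (by omega)
    have hrpC : ‖((r : ℂ) ^ p)‖ < 1 := by rw [norm_pow, hrC]; exact hrp1
    have hV : (3 / 2 : ℝ) ^ n * ‖G q ((ρ : ℂ) ^ p)‖ ≤ ‖Phi p q ((r : ℂ) ^ p)‖ := by
      rw [Phi_eq hp1 hq1 hpq hrpC, norm_mul]
      have h1 : 1 ≤ ‖Phi p q (((r : ℂ) ^ p) ^ p)‖ := by
        have := one_le_norm_Phi hp1 hq1 hpq (r := (r ^ p) ^ p) (by positivity)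
          (pow_lt_one₀ hrp0 hrp1 (by omega))
        push_cast at this
        exact this
      have h2 : (3 / 2 : ℝ) ^ n * ‖G q ((ρ : ℂ) ^ p)‖ ≤ ‖G q ((r : ℂ) ^ p)‖ := by
        rw [G_eq hq1 hrpC n, norm_mul]
        have h3 : ((r : ℂ) ^ p) ^ q ^ n = (ρ : ℂ) ^ p := by
          rw [← pow_mul, mul_comm p, pow_mul, ← Complex.ofReal_pow, hrn]
        rw [h3]
        apply mul_le_mul_of_nonneg_right _ (norm_nonneg _)
        rw [norm_prod]
        calc (3 / 2 : ℝ) ^ n = ∏ _b ∈ range n, (3 / 2 : ℝ) := by rw [prod_const, card_range]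
          _ ≤ ∏ b ∈ range n, ‖1 + ((r : ℂ) ^ p) ^ q ^ b‖ := by
            apply Finset.prod_le_prod
            · intro b _; norm_num
            · intro b hb
              have h4 : (1 : ℂ) + ((r : ℂ) ^ p) ^ q ^ b = ((1 + (r ^ q ^ b) ^ p : ℝ) : ℂ) := by
                push_cast
                rw [← pow_mul, ← pow_mul, mul_comm p]
              rw [h4, Complex.norm_real, Real.norm_of_nonneg (by positivity)]
              have h5 := hrb b (by rw [Finset.mem_range] at hb; omega)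
              have h6 : ρ ^ p ≤ (r ^ q ^ b) ^ p := pow_le_pow_left₀ hρ0.le h5 p
              rw [hρp] at h6
              linarith
      calc (3 / 2 : ℝ) ^ n * ‖G q ((ρ : ℂ) ^ p)‖ ≤ ‖G q ((r : ℂ) ^ p)‖ := h2
        _ ≤ ‖G q ((r : ℂ) ^ p)‖ * ‖Phi p q (((r : ℂ) ^ p) ^ p)‖ :=
          le_mul_of_one_le_right (norm_nonneg _) h1
    obtain ⟨V, hVdef⟩ : ∃ V : ℝ, V = ‖Phi p q ((r : ℂ) ^ p)‖ := ⟨_, rfl⟩
    rw [← hVdef] at hV
    have hV0 : 0 < V := lt_of_lt_of_le (by positivity) hV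
    have hmain := hC r (ζ * r) hr0.le hr1 hζr
    rw [hPhi1, hPhi2, norm_mul, norm_mul, ← hVdef, hGr] at hmain
    -- lower bound for ‖1 - ζ r‖
    have hone : ‖1 - ζ‖ / 2 ≤ ‖1 - ζ * (r : ℂ)‖ := by
      have h1 : ‖1 - ζ‖ ≤ ‖1 - ζ * (r : ℂ)‖ + ‖ζ * (r : ℂ) - ζ‖ := by
        calc ‖1 - ζ‖ = ‖(1 - ζ * (r : ℂ)) + (ζ * (r : ℂ) - ζ)‖ := by ring_nf
          _ ≤ _ := norm_add_le _ _
      have h2 : ‖ζ * (r : ℂ) - ζ‖ = 1 - r := by
        have : ζ * (r : ℂ) - ζ = -(ζ * ((1 - r : ℝ) : ℂ)) := by push_cast; ring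
        rw [this, norm_neg, norm_mul, hnormζ, one_mul, Complex.norm_real,
          Real.norm_of_nonneg (by linarith)]
      have h3 : 1 - r ≤ ‖1 - ζ * (r : ℂ)‖ := by
        have := norm_sub_norm_le (1 : ℂ) (ζ * (r : ℂ))
        rw [norm_one, hζr] at this
        exact this
      linarith
    -- 1 - r
    have h1r : 1 - r ≤ τ / (q : ℝ) ^ n := by
      have := Real.add_one_le_exp (-(τ / (q : ℝ) ^ n))
      rw [← hr] at this
      linarith
    -- put together
    have hUV : (9 / 4 : ℝ) ^ n * ‖G q ((ρ : ℂ) ^ p)‖ ≤ U * V := by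
      have h1 : (3 / 2 : ℝ) ^ n ≤ U := by
        refine le_trans ?_ hU1
        exact pow_le_pow_left₀ (by norm_num) (by linarith) n
      calc (9 / 4 : ℝ) ^ n * ‖G q ((ρ : ℂ) ^ p)‖
          = (3 / 2 : ℝ) ^ n * ((3 / 2 : ℝ) ^ n * ‖G q ((ρ : ℂ) ^ p)‖) := by
            rw [← mul_assoc, ← mul_pow]; norm_num
        _ ≤ U * V := mul_le_mul h1 hV (by positivity) hU0.le
    have hkey : ‖1 - ζ‖ / 2 * ‖G q (ζ * ρ)‖ * (U * (1 / 2) ^ n * V) ≤
        (τ / (q : ℝ) ^ n) * (U * ‖G q (ρ : ℂ)‖ * V) + C := by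
      calc ‖1 - ζ‖ / 2 * ‖G q (ζ * ρ)‖ * (U * (1 / 2) ^ n * V)
          = ‖1 - ζ‖ / 2 * ((U * (1 / 2) ^ n * ‖G q (ζ * ρ)‖) * V) := by ring
        _ ≤ ‖1 - ζ * (r : ℂ)‖ * (‖G q (ζ * (r : ℂ))‖ * V) := by
            apply mul_le_mul hone _ (by positivity) (norm_nonneg _)
            exact mul_le_mul_of_nonneg_right hGζ hV0.le
        _ ≤ (1 - r) * (U * ‖G q (ρ : ℂ)‖ * V) + C := hmain
        _ ≤ (τ / (q : ℝ) ^ n) * (U * ‖G q (ρ : ℂ)‖ * V) + C := by
            have : 0 ≤ U * ‖G q (ρ : ℂ)‖ * V := by positivity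
            nlinarith
    have hD : 0 < U * (1 / 2) ^ n * V := by positivity
    have h2 : ‖1 - ζ‖ / 2 * ‖G q (ζ * ρ)‖ ≤
        ((τ / (q : ℝ) ^ n) * (U * ‖G q (ρ : ℂ)‖ * V) + C) / (U * (1 / 2) ^ n * V) := by
      rw [le_div_iff₀ hD]
      exact hkey
    refine h2.trans ?_
    rw [add_div]
    apply add_le_add
    · have h3 : (τ / (q : ℝ) ^ n) * (U * ‖G q (ρ : ℂ)‖ * V) / (U * (1 / 2) ^ n * V) =
          τ * (2 / (q : ℝ)) ^ n * ‖G q (ρ : ℂ)‖ := by
        rw [div_pow, div_pow, one_pow]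
        field_simp
      rw [h3]
      apply mul_le_mul_of_nonneg_right _ (norm_nonneg _)
      apply mul_le_mul_of_nonneg_left _ hτ0.le
      apply pow_le_pow_left₀ (by positivity)
      rw [div_le_div_iff₀ (by linarith) (by norm_num)]
      linarith
    · rw [div_le_div_iff₀ hD hG2]
      have h4 : (8 / 9 : ℝ) ^ n * ((9 / 4 : ℝ) ^ n * (1 / 2) ^ n) = 1 := by
        rw [← mul_pow, ← mul_pow]; norm_num
      calc C * ‖G q ((ρ : ℂ) ^ p)‖
          = C * (8 / 9) ^ n * ((1 / 2) ^ n * ((9 / 4 : ℝ) ^ n * ‖G q ((ρ : ℂ) ^ p)‖)) := by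
            calc C * ‖G q ((ρ : ℂ) ^ p)‖ = C * ‖G q ((ρ : ℂ) ^ p)‖ *
                ((8 / 9 : ℝ) ^ n * ((9 / 4 : ℝ) ^ n * (1 / 2) ^ n)) := by rw [h4, mul_one]
              _ = _ := by ring
        _ ≤ C * (8 / 9) ^ n * ((1 / 2) ^ n * (U * V)) := by
            apply mul_le_mul_of_nonneg_left _ (by positivity)
            exact mul_le_mul_of_nonneg_left hUV (by positivity)
        _ = C * (8 / 9) ^ n * (U * (1 / 2) ^ n * V) := by ring
  -- let k tend to infinity
  have hlim : Tendsto (fun k : ℕ => τ * (2 / 3 : ℝ) ^ (h * k) * ‖G q (ρ : ℂ)‖ +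
        C * (8 / 9 : ℝ) ^ (h * k) / ‖G q ((ρ : ℂ) ^ p)‖) atTop (𝓝 0) := by
    have hk : Tendsto (fun k : ℕ => h * k) atTop atTop :=
      tendsto_id.const_mul_atTop' hh0
    have h1 := (tendsto_pow_atTop_nhds_zero_of_lt_one (r := (2 / 3 : ℝ)) (by norm_num)
      (by norm_num)).comp hk
    have h2 := (tendsto_pow_atTop_nhds_zero_of_lt_one (r := (8 / 9 : ℝ)) (by norm_num)
      (by norm_num)).comp hk
    have h3 := ((h1.const_mul τ).mul_const ‖G q (ρ : ℂ)‖).add
      ((h2.const_mul C).div_const ‖G q ((ρ : ℂ) ^ p)‖)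
    simpa [Function.comp_def] using h3
  have hfinal := ge_of_tendsto' hlim hest
  have hpos : 0 < ‖1 - ζ‖ / 2 * ‖G q (ζ * ρ)‖ := by
    have : 0 < ‖1 - ζ‖ := by
      rw [norm_pos_iff]
      intro h0
      exact hζ1 (by linear_combination -h0)
    positivity
  linarith

/-- The counting function is unbounded. -/
lemma unbounded {p q : ℕ} (hp : 1 < p) (hq : 1 < q) (hpq : p.Coprime q) (M : ℕ) :
    ∃ n, M < repCount p q n := by
  by_contra hcon
  push Not at hcon
  -- all subsets of the k × k square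
  have key : ∀ k : ℕ, 2 ^ (k * k) ≤ M * (p ^ k * q ^ k) := by
    intro k
    set Q : Finset (ℕ × ℕ) := range k ×ˢ range k with hQ
    have h1 : Q.powerset.card = 2 ^ (k * k) := by
      rw [card_powerset, hQ, card_product, card_range]
    rw [← h1]
    have hmaps : ∀ T ∈ Q.powerset, W p q T ∈ range (p ^ k * q ^ k) := by
      intro T hT
      rw [mem_powerset] at hT
      rw [mem_range]
      have h2 : W p q T ≤ W p q Q := Finset.sum_le_sum_of_subset hT
      have h3 : W p q Q = (∑ a ∈ range k, p ^ a) * ∑ b ∈ range k, q ^ b := by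
        rw [W, hQ, Finset.sum_product, Finset.sum_mul_sum]
        rfl
      have h4 : ∀ m : ℕ, 1 < m → ∑ a ∈ range k, m ^ a < m ^ k := fun m hm =>
        Nat.geomSum_lt (n := k) hm (by simp)
      have h5 := Nat.mul_lt_mul'' (h4 p hp) (h4 q hq)
      omega
    have hfib : ∀ n ∈ range (p ^ k * q ^ k), (Q.powerset.filter (fun T => W p q T = n)).card ≤ M := by
      intro n _
      refine le_trans ?_ (hcon n)
      rw [repCount_eq hp hq hpq, ← Set.ncard_coe_finset]
      apply Set.ncard_le_ncard _ (finite_fiber hp hq n)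
      intro T hT
      rw [Finset.mem_coe, Finset.mem_filter] at hT
      exact hT.2
    calc Q.powerset.card ≤ M * (range (p ^ k * q ^ k)).card :=
          Finset.card_le_mul_card_image_of_maps_to hmaps M hfib
      _ = M * (p ^ k * q ^ k) := by rw [card_range]
  -- contradiction for large k
  have h1 := key (M + p * q)
  have h2 : M < 2 ^ M := Nat.lt_two_pow_self
  have h3 : p * q < 2 ^ (p * q) := Nat.lt_two_pow_self
  have h4 : (p ^ (M + p * q) * q ^ (M + p * q)) ≤ (2 ^ (p * q)) ^ (M + p * q) := by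
    rw [← mul_pow]
    exact Nat.pow_le_pow_left h3.le _
  have h5 : M * (p ^ (M + p * q) * q ^ (M + p * q)) ≤
      M * (2 ^ (p * q)) ^ (M + p * q) := Nat.mul_le_mul_left _ h4
  have h6 : 2 ^ ((M + p * q) * (M + p * q)) = (2 ^ M) ^ (M + p * q) * (2 ^ (p * q)) ^ (M + p * q) := by
    rw [← mul_pow, ← pow_add, ← pow_mul]
  rw [h6] at h1
  have h7 : 0 < (2 ^ (p * q)) ^ (M + p * q) := by positivity
  have h8 : (2 ^ M) ^ (M + p * q) ≤ M := Nat.le_of_mul_le_mul_right (h1.trans h5) h7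
  have h9 : 2 ^ M ≤ (2 ^ M) ^ (M + p * q) := Nat.le_self_pow (by positivity) _
  omega

/-- For all coprime `q > p > 2` the sign of `f(n+1) - f(n)` changes infinitely often: the difference is positive for
infinitely many `n ≥ 1` and negative for infinitely many `n ≥ 1`. -/
theorem result (p q : ℕ) (hp : 2 < p) (hlt : p < q) (hpq : p.Coprime q) :
    {n : ℕ | 1 ≤ n ∧ repCount p q n < repCount p q (n + 1)}.Infinite ∧
      {n : ℕ | 1 ≤ n ∧ repCount p q (n + 1) < repCount p q n}.Infinite := by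
  have hp1 : 1 < p := by omega
  have hq1 : 1 < q := by omega
  constructor
  · rw [Set.infinite_iff_exists_gt]
    intro N
    by_contra hcon
    push Not at hcon
    have hmono : ∀ n ≥ N + 1, repCount p q (n + 1) ≤ repCount p q n := by
      intro n hn
      by_contra hlt'
      push Not at hlt'
      have := hcon n ⟨by omega, hlt'⟩
      omega
    have hbound : ∀ n ≥ N + 1, repCount p q n ≤ repCount p q (N + 1) := by
      intro n hn
      induction n, hn using Nat.le_induction with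
      | base => exact le_rfl
      | succ n hn ih => exact (hmono n hn).trans ih
    obtain ⟨n, hn⟩ := unbounded hp1 hq1 hpq (∑ m ∈ range (N + 2), repCount p q m)
    rcases Nat.lt_or_ge n (N + 1) with h1 | h1
    · have := Finset.single_le_sum (f := fun m => repCount p q m) (s := range (N + 2))
        (fun _ _ => Nat.zero_le _) (Finset.mem_range.2 (by omega : n < N + 2))
      omega
    · have h2 := hbound n h1
      have := Finset.single_le_sum (f := fun m => repCount p q m) (s := range (N + 2))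
        (fun _ _ => Nat.zero_le _) (Finset.mem_range.2 (by omega : N + 1 < N + 2))
      omega
  · rw [Set.infinite_iff_exists_gt]
    intro N
    by_contra hcon
    push Not at hcon
    apply not_eventually_mono hp hlt hpq (N + 1)
    intro n hn
    by_contra hlt'
    push Not at hlt'
    have := hcon n ⟨by omega, hlt'⟩
    omega

end Pool.Agent.Results.MP_b44203_nt.SignChanges
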